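import Pool.Agent.Helper95.AF.Defs

/-! # Project AF: the functional `rr` (blocks R1, R2) -/

set_option autoImplicit false
open MeasureTheory Real Set Filter Topology
open scoped ENNReal

namespace Pool.Agent.Helper6.AF

open Pool.Agent.Helper18.UC (nn LL sqo rep toT)
open Pool.Agent.Helper95.AF

/-! ### integer translations -/

theorem po_shift (a : ℝ) (b : ℕ → ℝ) (n : ℕ) (q : ℝ × ℝ) (u w : ℤ) :
    ∃ u' w' : ℤ, po a b n (q + ((u : ℝ), (w : ℝ))) = po a b n q + ((u' : ℝ), (w' : ℝ)) := by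
  induction n with
  | zero => exact ⟨u, w, rfl⟩
  | succ n ih =>
    obtain ⟨u', w', h⟩ := ih
    refine ⟨2 * u' - w', u', ?_⟩
    change st a (b n) (po a b n (q + ((u : ℝ), (w : ℝ)))) = st a (b n) (po a b n q) + _
    rw [h]
    have h1 : Real.sin (2 * π * ((po a b n q).1 + u')) = Real.sin (2 * π * (po a b n q).1) := by
      rw [show 2 * π * ((po a b n q).1 + u') = 2 * π * (po a b n q).1 + u' * (2 * π) by ring]
      exact Real.sin_add_int_mul_two_pi _ _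
    unfold st
    ext
    · simp only [Prod.fst_add, Prod.snd_add]
      rw [h1]
      push_cast
      ring
    · simp only [Prod.fst_add, Prod.snd_add]

theorem pM_shift (a : ℝ) (b : ℕ → ℝ) (n : ℕ) (q : ℝ × ℝ) (u w : ℤ) :
    pM a b n (q + ((u : ℝ), (w : ℝ))) = pM a b n q := by
  induction n with
  | zero => rfl
  | succ n ih =>
    obtain ⟨u', w', h⟩ := po_shift a b n q u w
    change mt a (po a b n (q + ((u : ℝ), (w : ℝ)))).1 * pM a b n (q + ((u : ℝ), (w : ℝ))) = _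
    rw [ih, h]
    have h1 : Real.cos (2 * π * ((po a b n q).1 + u')) = Real.cos (2 * π * (po a b n q).1) := by
      rw [show 2 * π * ((po a b n q).1 + u') = 2 * π * (po a b n q).1 + u' * (2 * π) by ring]
      exact Real.cos_add_int_mul_two_pi _ _
    change mt a ((po a b n q).1 + u') * _ = mt a (po a b n q).1 * _
    unfold Pool.Agent.Helper95.AF.mt
    rw [h1]

theorem det_pM (a : ℝ) (b : ℕ → ℝ) (n : ℕ) (q : ℝ × ℝ) : (pM a b n q).det = 1 := by
  induction n with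
  | zero => exact Matrix.det_one
  | succ n ih =>
    change (mt a (po a b n q).1 * pM a b n q).det = 1
    rw [Matrix.det_mul, ih, mul_one]
    unfold Pool.Agent.Helper95.AF.mt
    rw [Matrix.det_fin_two]
    simp

theorem one_le_nn (a : ℝ) (b : ℕ → ℝ) (n : ℕ) (q : ℝ × ℝ) : 1 ≤ nn (pM a b n q) := by
  have h := det_pM a b n q
  rw [Matrix.det_fin_two] at h
  unfold nn
  set x := pM a b n q 0 0
  set y := pM a b n q 0 1
  set z := pM a b n q 1 0
  set w := pM a b n q 1 1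
  have h1 : 1 ≤ |x| * |w| + |y| * |z| := by
    calc (1 : ℝ) = |x * w - y * z| := by rw [h, abs_one]
      _ ≤ |x * w| + |y * z| := abs_sub _ _
      _ = _ := by rw [abs_mul, abs_mul]
  by_contra hcon
  push Not at hcon
  nlinarith [abs_nonneg x, abs_nonneg y, abs_nonneg z, abs_nonneg w, mul_nonneg (abs_nonneg x) (abs_nonneg w),
    mul_nonneg (abs_nonneg y) (abs_nonneg z)]

theorem bad_zero (a : ℝ) (b : ℕ → ℝ) (n : ℕ) : bad a b n 0 = ∅ := by
  refine Set.eq_empty_of_forall_notMem fun z hz => ?_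
  have h : Real.log (nn (pM a b n z)) < 0 := hz
  exact absurd (Real.log_nonneg (one_le_nn a b n z)) (not_le.2 h)

theorem bad_mono {a : ℝ} {b : ℕ → ℝ} {n : ℕ} {r r' : ℝ} (h : r ≤ r') : bad a b n r ⊆ bad a b n r' :=
  fun _ hz => lt_of_lt_of_le hz h

theorem den_mono {a : ℝ} {b : ℕ → ℝ} {n : ℕ} {ρ δ r r' : ℝ} (h : r ≤ r') (hD : Den a b n ρ δ r') :
    Den a b n ρ δ r := fun c => (measure_mono (inter_subset_inter_left _ (bad_mono h))).trans (hD c)

theorem bddAbove_set (a : ℝ) (b : ℕ → ℝ) (n : ℕ) (ρ δ cap : ℝ) :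
    BddAbove {r : ℝ | 0 ≤ r ∧ r ≤ cap ∧ Den a b n ρ δ r} := ⟨cap, fun _ h => h.2.1⟩

theorem zero_mem {a : ℝ} {b : ℕ → ℝ} {n : ℕ} {ρ δ cap : ℝ} (hc : 0 ≤ cap) :
    (0 : ℝ) ∈ {r : ℝ | 0 ≤ r ∧ r ≤ cap ∧ Den a b n ρ δ r} := by
  refine ⟨le_rfl, hc, fun c => ?_⟩
  rw [bad_zero, empty_inter, measure_empty]
  exact zero_le

theorem bad_iUnion (a : ℝ) (b : ℕ → ℝ) (n : ℕ) (r : ℝ) :
    bad a b n r = ⋃ k : ℕ, bad a b n (r - 1 / ((k : ℝ) + 1)) := by
  ext z
  rw [mem_iUnion]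
  constructor
  · intro hz
    have hz' : Real.log (nn (pM a b n z)) < r := hz
    obtain ⟨k, hk⟩ := exists_nat_one_div_lt (sub_pos.2 hz')
    exact ⟨k, by change Real.log (nn (pM a b n z)) < r - 1 / ((k : ℝ) + 1); linarith⟩
  · rintro ⟨k, hk⟩
    have h1 : (0 : ℝ) < 1 / ((k : ℝ) + 1) := by positivity
    exact bad_mono (by linarith) hk

/-- **R1** -/
theorem rr_mem {a : ℝ} {n : ℕ} {ρ δ cap : ℝ} (hc : 0 ≤ cap) (hδ : 0 ≤ δ) (b : ℕ → ℝ) :
    0 ≤ rr a n ρ δ cap b ∧ rr a n ρ δ cap b ≤ cap ∧ Den a b n ρ δ (rr a n ρ δ cap b) := by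
  have hne : {r : ℝ | 0 ≤ r ∧ r ≤ cap ∧ Den a b n ρ δ r}.Nonempty := ⟨0, zero_mem hc⟩
  refine ⟨le_csSup (bddAbove_set a b n ρ δ cap) (zero_mem hc), csSup_le hne fun r h => h.2.1, fun c => ?_⟩
  rw [bad_iUnion, iUnion_inter, Monotone.measure_iUnion]
  · refine iSup_le fun k => ?_
    have h1 : (0 : ℝ) < 1 / ((k : ℝ) + 1) := by positivity
    obtain ⟨r', hr', h2⟩ := exists_lt_of_lt_csSup hne
      (show rr a n ρ δ cap b - 1 / ((k : ℝ) + 1) < sSup {r : ℝ | 0 ≤ r ∧ r ≤ cap ∧ Den a b n ρ δ r} by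
        change rr a n ρ δ cap b - 1 / ((k : ℝ) + 1) < rr a n ρ δ cap b
        linarith)
    exact den_mono h2.le hr'.2.2 c
  · intro j k hjk
    refine inter_subset_inter_left _ (bad_mono ?_)
    have h1 : (1 : ℝ) / ((k : ℝ) + 1) ≤ 1 / ((j : ℝ) + 1) := by
      apply one_div_le_one_div_of_le (by positivity)
      have : (j : ℝ) ≤ k := by exact_mod_cast hjk
      linarith
    linarith

theorem rr_not {a : ℝ} {n : ℕ} {ρ δ cap : ℝ} (hδ : 0 ≤ δ) (hρ : 0 < ρ) (hρ1 : ρ ≤ 1) (b : ℕ → ℝ) {r : ℝ} (h0 : 0 ≤ r)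
    (h1 : rr a n ρ δ cap b < r) (h2 : r ≤ cap) :
    ENNReal.ofReal (δ * ρ ^ 2) ≤ volume (bad a b n r ∩ sqo (0, 0) 2) := by
  have hnot : ¬ Den a b n ρ δ r := fun hD =>
    absurd (le_csSup (bddAbove_set a b n ρ δ cap) ⟨h0, h2, hD⟩) (not_le.2 h1)
  unfold Den at hnot
  push Not at hnot
  obtain ⟨c, hc⟩ := hnot
  refine hc.le.trans ?_
  set v : ℝ × ℝ := ((⌊c.1⌋ : ℝ), (⌊c.2⌋ : ℝ)) with hv
  rw [← measure_preimage_add_right volume v (bad a b n r ∩ sqo c ρ)]
  refine measure_mono ?_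
  rintro z ⟨hz1, hz2⟩
  refine ⟨?_, ?_⟩
  · have h3 : Real.log (nn (pM a b n (z + v))) < r := hz1
    rwa [hv, pM_shift] at h3
  · have h3 : z + v ∈ sqo c ρ := hz2
    unfold sqo at h3 ⊢
    rw [mem_prod, mem_Ico, mem_Ico] at h3 ⊢
    simp only [Prod.fst_add, Prod.snd_add, hv] at h3
    have e1 := Int.floor_le c.1
    have e2 := Int.lt_floor_add_one c.1
    have e3 := Int.floor_le c.2
    have e4 := Int.lt_floor_add_one c.2
    obtain ⟨⟨h4, h5⟩, h6, h7⟩ := h3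
    refine ⟨⟨?_, ?_⟩, ?_, ?_⟩
    · linarith
    · change z.1 < 0 + 2
      linarith
    · linarith
    · change z.2 < 0 + 2
      linarith

theorem po_congr {a : ℝ} {b b' : ℕ → ℝ} (n : ℕ) (h : ∀ j < n, b j = b' j) (z : ℝ × ℝ) : po a b n z = po a b' n z := by
  induction n with
  | zero => rfl
  | succ n ih =>
    change st a (b n) (po a b n z) = st a (b' n) (po a b' n z)
    rw [ih fun j hj => h j (by omega), h n (by omega)]

theorem pM_congr {a : ℝ} {b b' : ℕ → ℝ} (n : ℕ) (h : ∀ j < n, b j = b' j) (z : ℝ × ℝ) : pM a b n z = pM a b' n z := by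
  induction n with
  | zero => rfl
  | succ n ih =>
    change mt a (po a b n z).1 * pM a b n z = mt a (po a b' n z).1 * pM a b' n z
    rw [ih fun j hj => h j (by omega), po_congr n (fun j hj => h j (by omega)) z]

theorem rr_congr {a : ℝ} {n : ℕ} {ρ δ cap : ℝ} {b b' : ℕ → ℝ} (h : ∀ j < n, b j = b' j) :
    rr a n ρ δ cap b = rr a n ρ δ cap b' := by
  have h1 : ∀ r, bad a b n r = bad a b' n r := by
    intro r
    ext z
    change Real.log (nn (pM a b n z)) < r ↔ Real.log (nn (pM a b' n z)) < r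
    rw [pM_congr n h z]
  unfold rr Den
  simp only [h1]

/-- **R2**: `rr` is monotone up to errors -/
theorem rr_near {a a' : ℝ} {n : ℕ} {ρ δ cap y : ℝ} {b b' : ℕ → ℝ} (hc : 0 ≤ cap) (hδ : 0 ≤ δ) (hy : 0 ≤ y)
    (h : ∀ z, Real.log (nn (pM a' b' n z)) - y ≤ Real.log (nn (pM a b n z))) :
    rr a' n ρ δ cap b' - y ≤ rr a n ρ δ cap b := by
  obtain ⟨h1, h2, h3⟩ := rr_mem (a := a') (n := n) (ρ := ρ) hc hδ b'
  rcases le_total (rr a' n ρ δ cap b' - y) 0 with h4 | h4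
  · exact h4.trans (rr_mem hc hδ b).1
  · refine le_csSup (bddAbove_set a b n ρ δ cap) ⟨h4, by linarith, fun c => ?_⟩
    refine (measure_mono (inter_subset_inter_left _ fun z hz => ?_)).trans (h3 c)
    have h5 : Real.log (nn (pM a b n z)) < rr a' n ρ δ cap b' - y := hz
    have h6 := h z
    change Real.log (nn (pM a' b' n z)) < rr a' n ρ δ cap b'
    linarith

end Pool.Agent.Helper6.AF
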