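import Pool.Agent.Helper8.AF.Aff
import Pool.Agent.Helper6.AF.RR

/-! # Project AF: one noise step of the base level (block B1) -/

set_option autoImplicit false
open MeasureTheory Real Set Filter Topology
open scoped ENNReal

namespace Pool.Agent.Helper6.AF

open Pool.Agent.Helper95.AF

theorem pM_row (a : ℝ) (b : ℕ → ℝ) (m : ℕ) (q : ℝ × ℝ) : pM a b (m + 1) q 1 0 = pM a b m q 0 0 := by
  change (Pool.Agent.Helper95.AF.mt a (po a b m q).1 * pM a b m q) 1 0 = _
  rw [Matrix.mul_apply, Fin.sum_univ_two]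
  simp [Pool.Agent.Helper95.AF.mt]

theorem pM_rec (a : ℝ) (b : ℕ → ℝ) (m : ℕ) (q : ℝ × ℝ) : pM a b (m + 2) q 0 0 =
    -pM a b m q 0 0 + pM a b (m + 1) q 0 0 * (2 + 2 * π * a * Real.cos (2 * π * (po a b (m + 1) q).1)) := by
  have h1 : pM a b (m + 2) q 0 0 = (2 + 2 * π * a * Real.cos (2 * π * (po a b (m + 1) q).1)) * pM a b (m + 1) q 0 0 +
      -1 * pM a b (m + 1) q 1 0 := by
    change (Pool.Agent.Helper95.AF.mt a (po a b (m + 1) q).1 * pM a b (m + 1) q) 0 0 = _
    rw [Matrix.mul_apply, Fin.sum_univ_two]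
    rfl
  rw [h1, pM_row]
  ring

theorem po_update (a s t : ℝ) (b : ℕ → ℝ) (m : ℕ) (q : ℝ × ℝ) :
    (po a (Function.update b m (b m + s * t)) (m + 1) q).1 = (po a b (m + 1) q).1 + s * t := by
  have h1 : po a (Function.update b m (b m + s * t)) m q = po a b m q :=
    po_congr m (fun j hj => Function.update_of_ne (by omega) _ _) q
  change (st a (Function.update b m (b m + s * t) m) (po a (Function.update b m (b m + s * t)) m q)).1 =
    (st a (b m) (po a b m q)).1 + s * t
  rw [h1, Function.update_self]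
  unfold st
  ring

theorem pM_update (a s t : ℝ) (b : ℕ → ℝ) (m : ℕ) (q : ℝ × ℝ) :
    pM a (Function.update b m (b m + s * t)) (m + 2) q 0 0 = -pM a b m q 0 0 +
      pM a b (m + 1) q 0 0 * (2 + 2 * π * a * Real.cos (2 * π * ((po a b (m + 1) q).1 + s * t))) := by
  have h1 : ∀ z, pM a (Function.update b m (b m + s * t)) m z = pM a b m z := fun z =>
    pM_congr m (fun j hj => Function.update_of_ne (by omega) _ _) z
  have h2 : po a (Function.update b m (b m + s * t)) m q = po a b m q :=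
    po_congr m (fun j hj => Function.update_of_ne (by omega) _ _) q
  have h3 : pM a (Function.update b m (b m + s * t)) (m + 1) q = pM a b (m + 1) q := by
    change Pool.Agent.Helper95.AF.mt a (po a _ m q).1 * pM a _ m q = Pool.Agent.Helper95.AF.mt a (po a b m q).1 * pM a b m q
    rw [h1, h2]
  rw [pM_rec, po_update, h1, h3]

/-- **B1**: base step, noise at the time `m` -/
theorem base_step : ∃ C : ℝ, 1 ≤ C ∧ ∀ (a s : ℝ) (m : ℕ) (b : ℕ → ℝ) (q : ℝ × ℝ), 1 ≤ |a| → 0 < s → s ≤ 1 →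
    ∫⁻ t, ip (1 / 4) |pM a (Function.update b m (b m + s * t)) (m + 2) q 0 0| ∂un ≤
      ENNReal.ofReal (C / (s * |a| ^ (1 / 4 : ℝ))) * ip (1 / 4) |pM a b (m + 1) q 0 0| := by
  obtain ⟨K, hK, h⟩ := Pool.Agent.Helper8.AF.aff_gain
  refine ⟨K, hK, fun a s m b q ha hs hs1 => ?_⟩
  have h1 := h a (po a b (m + 1) q).1 s (-pM a b m q 0 0) (pM a b (m + 1) q 0 0) ha hs hs1
  simpa only [pM_update] using h1

theorem base_start : ∃ C : ℝ, 1 ≤ C ∧ ∀ (a s : ℝ) (b : ℕ → ℝ) (q : ℝ × ℝ), 1 ≤ |a| → 0 < s → s ≤ 1 →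
    ∫⁻ t, ip (1 / 4) |pM a (Function.update b 0 (b 0 + s * t)) 2 q 0 0| ∂un ≤ ENNReal.ofReal (C / s) := by
  obtain ⟨K, hK, h⟩ := Pool.Agent.Helper8.AF.aff_int
  refine ⟨2 * K, by linarith, fun a s b q ha hs hs1 => ?_⟩
  set x₀ := (po a b (0 + 1) q).1 with hx₀
  set β := pM a b (0 + 1) q 0 0 with hβ
  have e1 : ∀ t : ℝ, pM a (Function.update b 0 (b 0 + s * t)) 2 q 0 0 =
      -1 + β * (2 + 2 * π * a * Real.cos (2 * π * (x₀ + s * t))) := by
    intro t
    have h1 := pM_update a s t b 0 q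
    rw [zero_add] at h1
    rw [h1]
    change -(1 : Matrix (Fin 2) (Fin 2) ℝ) 0 0 + _ = _
    rw [Matrix.one_apply_eq]
  simp only [e1]
  set f : ℝ → ℝ≥0∞ := fun x => ip (1 / 4) |(-1) + β * (2 + 2 * π * a * Real.cos (2 * π * x))| with hf
  have hfm : Measurable f := by
    unfold f ip
    fun_prop
  change ∫⁻ t, f (x₀ + s * t) ∂un ≤ _
  -- change of variables
  have h2 := h a (x₀ + s / 2) (s / 2) (1 / 4) (-1) β ha (by positivity) (by linarith) (by norm_num) le_rfl
  have h3 : ∫⁻ t, f (x₀ + s * t) ∂un ≤ ENNReal.ofReal (1 / s) *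
      ∫⁻ x in Icc (x₀ + s / 2 - s / 2) (x₀ + s / 2 + s / 2), f x := by
    have h4 : ∫⁻ x in Icc (x₀ + s / 2 - s / 2) (x₀ + s / 2 + s / 2), f x =
        ∫⁻ x, (Icc (x₀ + s / 2 - s / 2) (x₀ + s / 2 + s / 2)).indicator f x := by
      rw [lintegral_indicator measurableSet_Icc]
    have h5 : ∫⁻ t, f (x₀ + s * t) ∂un =
        ∫⁻ t, (Icc (x₀ + s / 2 - s / 2) (x₀ + s / 2 + s / 2)).indicator f (x₀ + s * t) := by
      unfold un
      rw [← lintegral_indicator measurableSet_Icc]
      refine lintegral_congr fun t => ?_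
      by_cases ht : t ∈ Icc (0 : ℝ) 1
      · rw [indicator_of_mem ht, indicator_of_mem]
        constructor
        · nlinarith [ht.1]
        · nlinarith [ht.2]
      · rw [indicator_of_notMem ht, indicator_of_notMem]
        intro h6
        apply ht
        constructor
        · have := h6.1
          by_contra hcon
          push Not at hcon
          nlinarith
        · have := h6.2
          by_contra hcon
          push Not at hcon
          nlinarith
    rw [h5, h4]
    set g : ℝ → ℝ≥0∞ := (Icc (x₀ + s / 2 - s / 2) (x₀ + s / 2 + s / 2)).indicator f with hg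
    have hgm : Measurable g := hfm.indicator measurableSet_Icc
    have h6 : ∫⁻ t, g (x₀ + s * t) = ∫⁻ t, (fun u => g (x₀ + u)) (t * s) := by
      refine lintegral_congr fun t => ?_
      rw [mul_comm t s]
    have h7 : Measurable fun u => g (x₀ + u) := hgm.comp (measurable_const.add measurable_id)
    have h8 : ∫⁻ t, (fun u => g (x₀ + u)) (t * s) = ∫⁻ u, (fun u => g (x₀ + u)) u ∂(Measure.map (fun t => t * s) volume) := by
      rw [lintegral_map h7 (by fun_prop)]
    rw [h6, h8, Real.map_volume_mul_right hs.ne', lintegral_smul_measure, abs_of_pos (inv_pos.2 hs), one_div, smul_eq_mul]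
    refine mul_le_mul_right ?_ _
    rw [lintegral_add_left_eq_self g x₀]
  refine h3.trans ?_
  refine (mul_le_mul_right h2 _).trans ?_
  have h9 : ip (1 / 4) (max |(-1 : ℝ)| |β|) ≤ 1 := by
    unfold ip
    have h10 : (1 : ℝ≥0∞) ≤ ENNReal.ofReal (max |(-1 : ℝ)| |β|) := by
      rw [← ENNReal.ofReal_one]
      apply ENNReal.ofReal_le_ofReal
      rw [abs_neg, abs_one]
      exact le_max_left _ _
    exact ENNReal.rpow_le_one_of_one_le_of_neg h10 (by norm_num)
  calc ENNReal.ofReal (1 / s) * (ENNReal.ofReal (2 * (s / 2) * (K / (s / 2)) ^ (4 * (1 / 4) : ℝ)) *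
        ip (1 / 4) (max |(-1 : ℝ)| |β|))
      ≤ ENNReal.ofReal (1 / s) * (ENNReal.ofReal (2 * (s / 2) * (K / (s / 2)) ^ (4 * (1 / 4) : ℝ)) * 1) := by
        gcongr
    _ = ENNReal.ofReal (2 * K / s) := by
        rw [mul_one, ← ENNReal.ofReal_mul (by positivity)]
        congr 1
        rw [show (4 * (1 / 4) : ℝ) = 1 by norm_num, Real.rpow_one]
        field_simp

end Pool.Agent.Helper6.AF
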